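import Pool.Agent.Y180.LK.Cell

/-!
# The power saving in a cell
-/

set_option autoImplicit false
set_option linter.unusedSectionVars false

namespace Pool.Agent.Y180.LK

open NumberField IsDedekindDomain Finset Pool.Agent.H691R3 Pool.Agent.W223.AK
open Pool.Agent.W108.AK

variable {K : Type} [Field K] [NumberField K]

/-- the power saving in a cell -/
theorem cell_bound (S : Finset (Pr K)) (n : ℕ) (hSG : SGood S n) (hE : StmtEST S)
    (hM : StmtMB S) (M ε κ : ℝ) (E0 : ℕ) (hE0 : 2 ≤ E0) (hME : 3 * M ≤ E0) (hEn : E0 ≤ n)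
    (hM0 : 0 ≤ M) (hκ0 : 0 < κ) (hκε : κ ≤ ε) (hκ : 200 * (E0 : ℝ) ^ 2 * κ ≤ 1)
    (hMn : M ≤ κ * n) :
    ∃ D : ℝ, 0 < D ∧ ∀ (P : K → Fin 3 → Idl K) (E : Finset K) (L : ℝ), 1 ≤ L → cS S ≤ κ * L →
      (∀ x ∈ E, Pt x ∧ IsP S x (P x) ∧ (1 / 3 + ε) * L ≤ ht x ∧ ht x ≤ M * L ∧
        rl (P x 0) + rl (P x 1) + rl (P x 2) ≤ L) →
      (∀ x ∈ E, ∀ y ∈ E, Close S n P x y) →
      (E.card : ℝ) ≤ D * Real.exp ((2 / 3 - κ / 2) * L) := by
  classical
  have hSGk : ∀ k, k ≤ n → SGood S k := fun k hk i h1 h2 => hSG i h1 (h2.trans hk)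
  set δ : ℝ := κ / (4 * (M + 1)) with hδ
  have hδ0 : 0 < δ := by positivity
  obtain ⟨DE, hDE, hest⟩ := estn_of hE n hSG δ hδ0
  have hmb : ∀ k : ℕ, ∃ D : ℝ, 0 < D ∧ (1 ≤ k → k ≤ n → MBk S k δ D) := by
    intro k
    by_cases hk : 1 ≤ k ∧ k ≤ n
    · obtain ⟨D, hD, h⟩ := mbk_of hM k hk.1 (hSGk k hk.2) δ hδ0
      exact ⟨D, hD, fun _ _ => h⟩
    · exact ⟨1, one_pos, fun h1 h2 => absurd ⟨h1, h2⟩ hk⟩
  choose Dm hDm hmb using hmb
  set D0 : ℝ := DE + ∑ k ∈ range (n + 1), Dm k with hD0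
  have hDmle : ∀ i, i ≤ n → Dm i ≤ ∑ i ∈ range (n + 1), Dm i := fun i hi =>
    Finset.single_le_sum (f := Dm) (fun j _ => (hDm j).le) (Finset.mem_range.2 (by omega))
  have hDs : 0 ≤ ∑ i ∈ range (n + 1), Dm i := Finset.sum_nonneg fun j _ => (hDm j).le
  have hD00 : 0 < D0 := by positivity
  have hcS := cS_nonneg S
  have hn0 : (0 : ℝ) ≤ n := Nat.cast_nonneg n
  set G : ℝ := ((Spl S).card : ℝ) with hG
  have hG0 : 0 ≤ G := by positivity
  -- the constant
  set C0 : ℝ := δ * (cS S + n) + 10 * (n + 2) + cS S + G + 10 with hC0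
  have hC00 : 0 ≤ C0 := by positivity
  refine ⟨D0 * Real.exp C0, by positivity, ?_⟩
  intro P E L hL hcSL hEx hcl
  rcases E.eq_empty_or_nonempty with rfl | ⟨x₀, hx₀⟩
  · rw [Finset.card_empty, Nat.cast_zero]
    positivity
  obtain ⟨hpt0, hP0, hht1, hht2, hrl0⟩ := hEx x₀ hx₀
  have hcell : IsCell S n E P x₀ :=
    ⟨hx₀, fun x hx => ⟨(hEx x hx).1, (hEx x hx).2.1⟩, fun x hx => hcl x hx x₀ hx₀⟩
  by_contra hfail
  rw [not_le] at hfail
  have hL0 : 0 < L := by linarith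
  have hM1 : 0 < M + 1 := by linarith
  have hδL : δ * (M * L + 1) ≤ κ / 4 * L := by
    have h1 : δ * (M + 1) = κ / 4 := by
      rw [hδ]
      field_simp
    have h2 : δ * (M * L + 1) ≤ δ * ((M + 1) * L) :=
      mul_le_mul_of_nonneg_left (by nlinarith) hδ0.le
    calc δ * (M * L + 1) ≤ δ * ((M + 1) * L) := h2
      _ = (δ * (M + 1)) * L := by ring
      _ = κ / 4 * L := by rw [h1]
  -- the consequence of the failure
  have key : ∀ D X R C1 : ℝ, 0 < D → D ≤ D0 → X ≤ ht x₀ + 1 + cS S + n →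
      C1 ≤ 10 * (n + 2) + cS S + G + 10 →
      (E.card : ℝ) ≤ D * Real.exp (δ * X + R + C1) → (2 / 3 - κ) * L < R := by
    intro D X R C1 hDp hDD hX hC1 hcard
    by_contra hcon
    rw [not_lt] at hcon
    have h1 : δ * X ≤ κ / 4 * L + δ * (cS S + n) := by
      have h2 : δ * X ≤ δ * ((M * L + 1) + (cS S + n)) :=
        mul_le_mul_of_nonneg_left (by linarith) hδ0.le
      rw [mul_add] at h2
      linarith
    have h2 : δ * X + R + C1 ≤ C0 + (2 / 3 - κ / 2) * L := by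
      have h3 : 0 ≤ κ * L := by positivity
      rw [hC0]
      linarith
    have h3 : D * Real.exp (δ * X + R + C1) ≤
        D0 * Real.exp C0 * Real.exp ((2 / 3 - κ / 2) * L) := by
      rw [mul_assoc, ← Real.exp_add]
      exact mul_le_mul hDD (Real.exp_le_exp.mpr h2) (Real.exp_pos _).le hD00.le
    exact absurd (hcard.trans h3) (not_le.mpr hfail)
  have hD1 : ∀ k, k ≤ n → Dm k ≤ D0 := by
    intro k hk
    have := hDmle k hk
    linarith
  have hDE' : DE ≤ D0 := by linarith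
  have hn1 : 1 ≤ n := by omega
  -- normalisation
  refine comb M ε κ E0 hE0 hME hκ0 hκε hκ (ht x₀ / L) (fun l => rl (P x₀ l) / L)
    (fun l e => rl (ex (P x₀ l) {e}) / L) ?_ ?_ ?_ ?_ ?_ ?_ ?_ ?_ ?_ ?_
  · intro l e
    exact div_nonneg (rl_nonneg _) hL0.le
  · intro l e _ _
    exact div_le_div_of_nonneg_right (rl_ex_le_rl _ _) hL0.le
  · rw [← add_div, ← add_div, div_le_one hL0]
    exact hrl0
  · rw [le_div_iff₀ hL0]
    exact hht1
  · rw [div_le_iff₀ hL0]
    exact hht2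
  · intro l N hN
    have h1 := weight (P x₀ l) N
    have h2 := len_le hpt0 hP0 l
    have h3 : ∑ e ∈ range N, ((e : ℝ) + 1) * (rl (ex (P x₀ l) {e + 1}) / L) +
        ((N : ℝ) + 1) * (rl (P x₀ l) / L - ∑ e ∈ range N, rl (ex (P x₀ l) {e + 1}) / L) =
        (∑ e ∈ range N, ((e : ℝ) + 1) * rl (ex (P x₀ l) {e + 1}) +
        ((N : ℝ) + 1) * (rl (P x₀ l) - ∑ e ∈ range N, rl (ex (P x₀ l) {e + 1}))) / L := by
      rw [← Finset.sum_div, ← sub_div, add_div, Finset.sum_div]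
      congr 1
      · refine Finset.sum_congr rfl fun e _ => ?_
        ring
      · ring
    have h4 : (ht x₀ / L + κ) * L = ht x₀ + κ * L := by
      rw [add_mul, div_mul_cancel₀ _ hL0.ne']
    rw [h3, div_le_iff₀ hL0, h4]
    linarith
  · intro p q r hpq hqr hpr
    have h1 := key (Dm 1) _ _ _ (hDm 1) (hD1 1 hn1) (by linarith) ?_
      (hcell.b0 (hDm 1).le (hmb 1 le_rfl hn1) hpq hqr hpr)
    · rw [← add_div, lt_div_iff₀ hL0]
      exact h1
    · linarith
  · have h1 := key (Dm 1) _ _ _ (hDm 1) (hD1 1 hn1) (by linarith) ?_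
      (hcell.b1 hn1 (hDm 1).le (hmb 1 le_rfl hn1))
    · have h2 : max 0 (-(ht x₀ / L) + (rl (ex (P x₀ 0) {1}) / L + rl (ex (P x₀ 1) {1}) / L +
          rl (ex (P x₀ 2) {1}) / L)) = max 0 (-ht x₀ +
          (rl (ex (P x₀ 0) {1}) + rl (ex (P x₀ 1) {1}) + rl (ex (P x₀ 2) {1}))) / L := by
        rw [← max_div_div_right hL0.le, zero_div]
        congr 1
        ring
      rw [h2, ← add_div, ← add_div, ← add_div, ← add_div, ← sub_div, ← add_div,
        lt_div_iff₀ hL0]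
      exact h1
    · linarith
  · intro p q r hpq hqr hpr e he1 he2
    have heE : (e : ℝ) ≤ n := by exact_mod_cast he2.trans hEn
    have h1 := key DE _ _ _ hDE hDE' le_rfl ?_
      (hcell.b2 he1 (he2.trans hEn) hDE.le hest hpq hqr hpr)
    · have ht1 : ∀ j, rl (ex (P x₀ j) {m | n < m}) ≤ κ * L := by
        intro j
        have h1 := le_len_of (P x₀ j) {m | n < m} (n + 1) (fun m hm => hm)
        push_cast at h1
        have h2 := len_ex_le (P x₀ j) {m | n < m}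
        have h3 := len_le hpt0 hP0 j
        have h4 : M * L ≤ κ * n * L := mul_le_mul_of_nonneg_right hMn hL0.le
        by_contra hcon
        rw [not_le] at hcon
        have h5 : ((n : ℝ) + 1) * (κ * L) < ((n : ℝ) + 1) * rl (ex (P x₀ j) {m | n < m}) :=
          mul_lt_mul_of_pos_left hcon (by linarith)
        nlinarith
      have h2 : ∀ j, max 0 (3 / 2 * (rl (P x₀ j) / L) - ht x₀ / L +
          e * (rl (ex (P x₀ r) {e}) / L)) =
          max 0 (3 / 2 * rl (P x₀ j) - ht x₀ + e * rl (ex (P x₀ r) {e})) / L := by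
        intro j
        rw [← max_div_div_right hL0.le, zero_div]
        congr 1
        ring
      rw [h2, h2]
      have h3 : (rl (P x₀ r) / L - rl (ex (P x₀ r) {e}) / L) + 1 / 2 * (κ + rl (P x₀ p) / L +
          max 0 (3 / 2 * rl (P x₀ p) - ht x₀ + e * rl (ex (P x₀ r) {e})) / L) +
          1 / 2 * (κ + rl (P x₀ q) / L +
          max 0 (3 / 2 * rl (P x₀ q) - ht x₀ + e * rl (ex (P x₀ r) {e})) / L) =
          ((rl (P x₀ r) - rl (ex (P x₀ r) {e})) + 1 / 2 * (κ * L + rl (P x₀ p) +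
          max 0 (3 / 2 * rl (P x₀ p) - ht x₀ + e * rl (ex (P x₀ r) {e}))) +
          1 / 2 * (κ * L + rl (P x₀ q) +
          max 0 (3 / 2 * rl (P x₀ q) - ht x₀ + e * rl (ex (P x₀ r) {e})))) / L := by
        field_simp
      rw [h3, lt_div_iff₀ hL0]
      have t1 := ht1 p
      have t2 := ht1 q
      linarith
    · linarith
  · intro p q r hpq hqr hpr e he1 he2
    have h1 := key (Dm e) _ _ _ (hDm e) (hD1 e (he2.trans hEn)) (by linarith) ?_
      (hcell.b3 he1 (he2.trans hEn) (hDm e).le (hmb e (by omega) (he2.trans hEn)) hpq hqr hpr)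
    · rw [← sub_div, ← sub_div, ← add_div, ← add_div, lt_div_iff₀ hL0]
      exact h1
    · linarith

end Pool.Agent.Y180.LK
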