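import Pool.Agent.TH876.KR.Main
import Pool.Agent.W223.AK.Main
import Pool.Agent.Y180.LK.Bound

/-!
# Points of polynomial height: power saving
-/

set_option autoImplicit false
set_option linter.unusedSectionVars false

namespace Pool.Agent.Y180.LK

open Finset NumberField IsDedekindDomain

section Bridge

variable {K : Type} [Field K] [NumberField K]

theorem ht_le_hgt {x : K} (hx : Pool.Agent.TH876.Loc.Pt x) :
    Pool.Agent.W223.AK.ht x ≤ Pool.Agent.TH876.Loc.hgt x ∧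
    Pool.Agent.TH876.Loc.hgt x ≤ Pool.Agent.W223.AK.ht x +
      Pool.Agent.TH876.Loc.dK K * Real.log 2 := by
  classical
  have h1 := Pool.Agent.W223.AK.ht_eq (Pool.Agent.TH876.Loc.sp x) x ∅ (by
    intro v hv _
    rw [Pool.Agent.TH876.Loc.mem_sp hx, not_not] at hv
    exact hv.1.le) (Finset.disjoint_empty_right _)
  rw [Finset.sum_empty, add_zero] at h1
  have h2 : Pool.Agent.TH876.Loc.hgt x =
      ∑ v ∈ Pool.Agent.TH876.Loc.Spl (Pool.Agent.TH876.Loc.sp x), Pool.Agent.TH876.Loc.mx v x :=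
    rfl
  have h3 : ∀ v : Pool.Agent.H691R3.Pl K, max (Pool.Agent.TH876.Loc.av v x) 1 ≤
      Pool.Agent.TH876.Loc.M v x := by
    intro v
    refine max_le (Pool.Agent.TH876.Loc.av_L_le v x 0) (Pool.Agent.TH876.Loc.one_le_M v x)
  have h4 : ∀ v : Pool.Agent.H691R3.Pl K, Pool.Agent.TH876.Loc.M v x ≤
      Pool.Agent.TH876.Loc.cv v * max (Pool.Agent.TH876.Loc.av v x) 1 := by
    intro v
    have hc := Pool.Agent.TH876.Loc.one_le_cv v
    have hm : 0 < max (Pool.Agent.TH876.Loc.av v x) 1 := lt_max_of_lt_right one_pos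
    have h5 : max (Pool.Agent.TH876.Loc.av v x) 1 ≤
        Pool.Agent.TH876.Loc.cv v * max (Pool.Agent.TH876.Loc.av v x) 1 :=
      le_mul_of_one_le_left hm.le hc
    have h6 := Pool.Agent.TH876.Loc.av_add v x 1
    rw [map_one] at h6
    have h7 : Pool.Agent.TH876.Loc.av v (-x - 1) = Pool.Agent.TH876.Loc.av v (x + 1) := by
      have : -x - 1 = -(x + 1) := by ring
      rw [this, (Pool.Agent.TH876.Loc.av v).map_neg]
    refine max_le ((le_max_left _ _).trans h5) (max_le ?_ ?_)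
    · show Pool.Agent.TH876.Loc.av v 1 ≤ _
      rw [map_one]
      exact (le_max_right _ _).trans h5
    · show Pool.Agent.TH876.Loc.av v (-x - 1) ≤ _
      rw [h7]
      exact h6
  have h5 : ∀ v : Pool.Agent.H691R3.Pl K, 0 < Pool.Agent.TH876.Loc.mt v :=
    Pool.Agent.TH876.Loc.mt_pos
  constructor
  · rw [h1, h2]
    refine Finset.sum_le_sum fun v _ => ?_
    refine mul_le_mul_of_nonneg_left (Real.log_le_log ?_ (h3 v)) (h5 v).le
    exact lt_max_of_lt_right one_pos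
  · rw [h1, h2, ← Pool.Agent.TH876.Loc.sum_cv (K := K) (Pool.Agent.TH876.Loc.sp x)]
    have h6 : ∑ v ∈ Pool.Agent.W223.AK.Spl (Pool.Agent.TH876.Loc.sp x),
        Pool.Agent.H691R3.mt v * Real.log (max (Pool.Agent.H691R3.av v x) 1) =
        ∑ v ∈ Pool.Agent.TH876.Loc.Spl (Pool.Agent.TH876.Loc.sp x),
        Pool.Agent.TH876.Loc.mt v * Real.log (max (Pool.Agent.TH876.Loc.av v x) 1) := rfl
    rw [h6, ← Finset.sum_add_distrib]
    refine Finset.sum_le_sum fun v _ => ?_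
    rw [← mul_add]
    refine mul_le_mul_of_nonneg_left ?_ (h5 v).le
    have hm : 0 < max (Pool.Agent.TH876.Loc.av v x) 1 := lt_max_of_lt_right one_pos
    have hc := Pool.Agent.TH876.Loc.one_le_cv v
    rw [add_comm, ← Real.log_mul (by linarith) hm.ne']
    refine Real.log_le_log ?_ (h4 v)
    exact lt_of_lt_of_le one_pos (Pool.Agent.TH876.Loc.one_le_M v x)

theorem rl_le_nn {S : Finset (Pool.Agent.W223.AK.Pr K)} {x : K}
    (hx : Pool.Agent.TH876.Loc.Pt x) {P : Fin 3 → Pool.Agent.W223.AK.Idl K}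
    (hP : Pool.Agent.W223.AK.IsP S x P) :
    Pool.Agent.W223.AK.rl (P 0) + Pool.Agent.W223.AK.rl (P 1) + Pool.Agent.W223.AK.rl (P 2) ≤
      Real.log (Pool.Agent.TH876.Loc.nn (Pool.Agent.TH876.Loc.sp x)) := by
  classical
  have hsupp : ∀ l, (P l).support ⊆ Pool.Agent.TH876.Loc.sp x := by
    intro l v hv
    rw [Finsupp.mem_support_iff] at hv
    by_contra hcon
    have h1 := Pool.Agent.W223.AK.fv_lt_of_ne hP hv
    rw [Pool.Agent.TH876.Loc.mem_sp hx, not_not] at hcon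
    have h2 : Pool.Agent.H691R3.fv v (Pool.Agent.W223.AK.L l x) = 1 := by
      fin_cases l
      · exact hcon.1
      · exact map_one _
      · exact hcon.2
    rw [h2, hcon.1, max_self] at h1
    exact lt_irrefl _ h1
  rw [Pool.Agent.W223.AK.rl_eq_sum_ite _ (hsupp 0), Pool.Agent.W223.AK.rl_eq_sum_ite _ (hsupp 1),
    Pool.Agent.W223.AK.rl_eq_sum_ite _ (hsupp 2), ← Finset.sum_add_distrib,
    ← Finset.sum_add_distrib]
  unfold Pool.Agent.TH876.Loc.nn
  rw [Real.log_prod (fun v _ => (Pool.Agent.TH876.Loc.Nv_pos v).ne')]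
  refine Finset.sum_le_sum fun v _ => ?_
  have hl : 0 ≤ Real.log (Pool.Agent.H691R3.Nv v) :=
    Real.log_nonneg (Pool.Agent.TH876.Loc.one_le_Nv v)
  have h01 := hP.cop (show (0 : Fin 3) ≠ 1 by decide) v
  have h02 := hP.cop (show (0 : Fin 3) ≠ 2 by decide) v
  have h12 := hP.cop (show (1 : Fin 3) ≠ 2 by decide) v
  by_cases h0 : P 0 v = 0 <;> by_cases h1 : P 1 v = 0 <;> by_cases h2 : P 2 v = 0 <;>
    simp [h0, h1, h2] at h01 h02 h12 ⊢
  linarith

end Bridge

section Count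

open Pool.Agent.W223.AK Pool.Agent.W108.AK

variable {K : Type} [Field K] [NumberField K]

/-- the functions whose integral parts define the cells -/
noncomputable def cf (S : Finset (Pr K)) (n : ℕ) (P : K → Fin 3 → Idl K) :
    (Unit ⊕ (Fin 3 × (Fin n ⊕ (Unit ⊕ {v // v ∈ Spl S})))) → K → ℝ
  | Sum.inl _, x => ht x
  | Sum.inr (l, Sum.inl i), x => rl (ex (P x l) {(i : ℕ) + 1})
  | Sum.inr (l, Sum.inr (Sum.inl _)), x => rl (ex (P x l) {m | n < m})
  | Sum.inr (l, Sum.inr (Sum.inr v)), x => lm v.1 l x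

/-- the count, in terms of the ideals of the points -/
theorem count_P (K : Type) [Field K] [NumberField K] (M ε : ℝ) (hM : 1 ≤ M) (hε : 0 < ε) :
    ∃ (S : Finset (Pr K)) (ν D L0 : ℝ), 0 < ν ∧ ν ≤ 1 / 3 ∧ 0 < D ∧ 1 ≤ L0 ∧
      ∀ (P : K → Fin 3 → Idl K) (E : Finset K) (L : ℝ), L0 ≤ L →
      (∀ x ∈ E, Pt x ∧ IsP S x (P x) ∧ (1 / 3 + ε) * L ≤ ht x ∧ ht x ≤ M * L ∧
        rl (P x 0) + rl (P x 1) + rl (P x 2) ≤ L) →
      (E.card : ℝ) ≤ D * Real.exp ((2 / 3 - ν) * L) := by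
  classical
  -- the parameters
  obtain ⟨E0, hE0⟩ : ∃ E0 : ℕ, E0 = ⌈3 * M⌉₊ + 2 := ⟨_, rfl⟩
  have hE02 : 2 ≤ E0 := by omega
  have hE0M : 3 * M ≤ E0 := by
    rw [hE0]
    push_cast
    linarith [Nat.le_ceil (3 * M)]
  have hE0r : (2 : ℝ) ≤ E0 := by exact_mod_cast hE02
  obtain ⟨κ, hκd⟩ : ∃ κ : ℝ, κ = min ε (1 / (200 * (E0 : ℝ) ^ 2)) := ⟨_, rfl⟩
  have hκ0 : 0 < κ := by
    rw [hκd]
    exact lt_min hε (by positivity)
  have hκε : κ ≤ ε := by rw [hκd]; exact min_le_left _ _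
  have hκ1 : 200 * (E0 : ℝ) ^ 2 * κ ≤ 1 := by
    have h1 : κ ≤ 1 / (200 * (E0 : ℝ) ^ 2) := by rw [hκd]; exact min_le_right _ _
    rw [le_div_iff₀ (by positivity)] at h1
    linarith
  have hκ2 : κ ≤ 1 := by nlinarith [mul_nonneg (sub_nonneg.2 hE0r) hκ0.le]
  obtain ⟨n, hnd⟩ : ∃ n : ℕ, n = max E0 ⌈M / κ⌉₊ := ⟨_, rfl⟩
  have hEn : E0 ≤ n := by rw [hnd]; exact le_max_left _ _
  have hMn : M ≤ κ * n := by
    have h1 : M / κ ≤ n := by
      rw [hnd]
      exact (Nat.le_ceil _).trans (by exact_mod_cast le_max_right _ _)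
    rw [div_le_iff₀ hκ0] at h1
    linarith
  -- the set of special primes
  have hfin : ∀ i : ℕ, {v : Pr K | 1 ≤ i ∧ Pool.Agent.H691R3.fv v (i : K) ≠ 1}.Finite := by
    intro i
    by_cases hi : 1 ≤ i
    · refine (Pool.Agent.H691R3.fv_support_finite (K := K) (x := (i : K)) ?_).subset
        fun v hv => hv.2
      exact_mod_cast (by omega : i ≠ 0)
    · refine Set.Finite.subset Set.finite_empty fun v hv => absurd hv.1 hi
  obtain ⟨S, hS, w, C, hw⟩ := Pool.Agent.W45.AK.uni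
    ((Finset.range (n + 1)).biUnion fun i => (hfin i).toFinset)
  have hSG : SGood S n := by
    intro i h1 h2 v hv
    by_contra hcon
    apply hv
    apply hS
    rw [Finset.mem_biUnion]
    exact ⟨i, Finset.mem_range.mpr (by omega), by
      rw [Set.Finite.mem_toFinset]; exact ⟨h1, hcon⟩⟩
  obtain ⟨D1, hD1, hcell⟩ := cell_bound S n hSG (est_all K S w C hw) (Pool.Agent.W108.AK.mb S)
    M ε κ E0 hE02 hE0M hEn (by linarith) hκ0 hκε hκ1 hMn
  obtain ⟨D2, hD2, hcount⟩ := cells (Unit ⊕ (Fin 3 × (Fin n ⊕ (Unit ⊕ {v // v ∈ Spl S}))))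
    (cS S) (κ / (4 * M)) (cS_nonneg S) (by positivity)
  have hcS := cS_nonneg S
  refine ⟨S, κ / 4, D2 * D1, 1 + cS S / κ, by positivity, by linarith, by positivity, ?_, ?_⟩
  · have : 0 ≤ cS S / κ := by positivity
    linarith
  intro P E L hL hEx
  have hL1 : 1 ≤ L := by
    have : 0 ≤ cS S / κ := by positivity
    linarith
  have hL2 : cS S ≤ κ * L := by
    have h1 : cS S / κ ≤ L := by linarith
    rw [div_le_iff₀ hκ0] at h1
    linarith
  have hL0 : 0 < L := by linarith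
  have hML : 0 ≤ M * L := by positivity
  have hmain := hcount K (cf S n P) (M * L) E hML ?_
    (D1 * Real.exp ((2 / 3 - κ / 2) * L)) (by positivity) ?_
  · refine hmain.trans (le_of_eq ?_)
    have h1 : κ / (4 * M) * (M * L) = κ / 4 * L := by
      field_simp
    have h2 : (2 / 3 - κ / 4) * L = κ / 4 * L + (2 / 3 - κ / 2) * L := by ring
    rw [h1, h2, Real.exp_add]
    ring
  · intro x hx j
    obtain ⟨hpt, hPx, _, hht, _⟩ := hEx x hx
    have hlen : ∀ l, len (P x l) ≤ M * L + cS S := fun l => by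
      have := len_le hpt hPx l
      linarith
    rcases j with _ | ⟨l, i | (b | v)⟩
    · show -cS S ≤ ht x ∧ ht x ≤ M * L + cS S
      have := ht_nonneg x
      constructor <;> linarith
    · show -cS S ≤ rl (ex (P x l) {(i : ℕ) + 1}) ∧ rl (ex (P x l) {(i : ℕ) + 1}) ≤ M * L + cS S
      have h1 := rl_nonneg (ex (P x l) {(i : ℕ) + 1})
      have h2 := rl_ex_le (P x l) {(i : ℕ) + 1}
      have h3 := hlen l
      constructor <;> linarith
    · show -cS S ≤ rl (ex (P x l) {m | n < m}) ∧ rl (ex (P x l) {m | n < m}) ≤ M * L + cS S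
      have h1 := rl_nonneg (ex (P x l) {m | n < m})
      have h2 := rl_ex_le (P x l) {m | n < m}
      have h3 := hlen l
      constructor <;> linarith
    · show -cS S ≤ lm v.1 l x ∧ lm v.1 l x ≤ M * L + cS S
      have h1 := lm_ge hpt v.1 l
      have h2 := lm_le hpt v.2 l
      have h3 : Pool.Agent.H691R3.mt v.1 * Real.log 2 ≤ cS S :=
        Finset.single_le_sum (f := fun u : Pool.Agent.H691R3.Pl K =>
          Pool.Agent.H691R3.mt u * Real.log 2)
          (fun u _ => mul_nonneg (Pool.Agent.H691R3.mt_pos u).le (Real.log_nonneg (by norm_num)))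
          v.2
      constructor <;> linarith
  · intro G hGE hG
    refine hcell P G L hL1 hL2 (fun x hx => hEx x (hGE hx)) ?_
    intro x hx y hy
    exact ⟨hG (Sum.inl ()) x hx y hy,
      fun l i => hG (Sum.inr (l, Sum.inl i)) x hx y hy,
      fun l => hG (Sum.inr (l, Sum.inr (Sum.inl ()))) x hx y hy,
      fun l v hv => hG (Sum.inr (l, Sum.inr (Sum.inr ⟨v, hv⟩))) x hx y hy⟩

end Count

end Pool.Agent.Y180.LK

namespace Pool.Agent.Y180

open Finset NumberField IsDedekindDomain Pool.Agent.H691R3 Pool.Agent.TH876.Loc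

/-- Points of polynomial height: power saving. -/
theorem large_heightsK (K : Type) [Field K] [NumberField K] (M ε : ℝ) (hε : 0 < ε) :
    ∃ ν : ℝ, 0 < ν ∧ ∃ C : ℝ, 0 < C ∧ ∀ X : ℝ, 1 ≤ X → ∀ F : Finset K,
      (∀ x ∈ F, Pt x ∧ nn (sp x) ≤ X ∧ (1 / 3 + ε) * Real.log X ≤ hgt x ∧
        hgt x ≤ M * Real.log X) → (F.card : ℝ) ≤ C * X ^ (2 / 3 - ν) := by
  classical
  obtain ⟨S, ν, D, L0, hν, hν3, hD, hL0, hcount⟩ :=
    LK.count_P K (max M 1) (ε / 2) (le_max_right _ _) (by positivity)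
  obtain ⟨C2, hC2, hall⟩ := Pool.Agent.TH876.KR.all_heights K 1 one_pos
  have hdK : 0 ≤ dK K * Real.log 2 := by
    refine mul_nonneg ?_ (Real.log_nonneg (by norm_num))
    exact Finset.sum_nonneg fun w _ => Nat.cast_nonneg _
  obtain ⟨L1, hL1⟩ : ∃ L1 : ℝ, L1 = L0 + dK K * Real.log 2 / (ε / 2) := ⟨_, rfl⟩
  have hL1' : L0 ≤ L1 ∧ dK K * Real.log 2 ≤ (ε / 2) * L1 := by
    have h1 : 0 ≤ dK K * Real.log 2 / (ε / 2) := by positivity
    refine ⟨by linarith, ?_⟩
    have h2 : dK K * Real.log 2 / (ε / 2) ≤ L1 := by linarith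
    rw [div_le_iff₀ (by positivity)] at h2
    linarith
  obtain ⟨X0, hX0⟩ : ∃ X0 : ℝ, X0 = max 16 (Real.exp L1) := ⟨_, rfl⟩
  have hX016 : 16 ≤ X0 := by rw [hX0]; exact le_max_left _ _
  have hX0p : 0 < X0 := by linarith
  obtain ⟨B, hBd⟩ : ∃ B : ℝ, B = C2 * X0 ^ ((1 : ℝ) + 1) := ⟨_, rfl⟩
  have hB0 : 0 < B := by rw [hBd]; positivity
  refine ⟨ν, hν, D + B, by positivity, ?_⟩
  intro X hX F hF
  have hXp : 0 < X := by linarith
  have hX1 : 1 ≤ X ^ (2 / 3 - ν) := Real.one_le_rpow hX (by linarith)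
  rw [add_mul]
  have z1 : 0 ≤ D * X ^ (2 / 3 - ν) := by positivity
  have z2 : 0 ≤ B * X ^ (2 / 3 - ν) := by positivity
  rcases le_or_gt X X0 with hsm | hbig
  · have h1 := hall X0 hX016 F fun x hx => ⟨(hF x hx).1, (hF x hx).2.1.trans hsm⟩
    rw [← hBd] at h1
    have h2 : B * 1 ≤ B * X ^ (2 / 3 - ν) := mul_le_mul_of_nonneg_left hX1 hB0.le
    linarith
  have hLX : L1 ≤ Real.log X := by
    rw [Real.le_log_iff_exp_le hXp]
    refine le_trans ?_ hbig.le
    rw [hX0]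
    exact le_max_right _ _
  have hLp : 0 < Real.log X := by linarith [hL1'.1]
  have hex : ∀ x : K, ∃ P : Fin 3 → Pool.Agent.W223.AK.Idl K, x ∈ F →
      Pool.Agent.W223.AK.IsP S x P := by
    intro x
    by_cases hx : x ∈ F
    · obtain ⟨P, hP⟩ := Pool.Agent.W223.AK.exists_isP S (x := x) (hF x hx).1
      exact ⟨P, fun _ => hP⟩
    · exact ⟨fun _ => 0, fun h => absurd h hx⟩
  choose P hP using hex
  have h1 := hcount P F (Real.log X) (hL1'.1.trans hLX) (by
    intro x hx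
    obtain ⟨hpt, hnn, hh1, hh2⟩ := hF x hx
    obtain ⟨b1, b2⟩ := LK.ht_le_hgt hpt
    refine ⟨hpt, hP x hx, ?_, ?_, ?_⟩
    · have h2 : (ε / 2) * L1 ≤ (ε / 2) * Real.log X :=
        mul_le_mul_of_nonneg_left hLX (by positivity)
      have h3 := hL1'.2
      linarith
    · have h2 : M * Real.log X ≤ max M 1 * Real.log X :=
        mul_le_mul_of_nonneg_right (le_max_left _ _) hLp.le
      linarith
    · refine (LK.rl_le_nn hpt (hP x hx)).trans ?_
      exact Real.log_le_log (nn_pos _) hnn)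
  have h2 : Real.exp ((2 / 3 - ν) * Real.log X) = X ^ (2 / 3 - ν) := by
    rw [Real.rpow_def_of_pos hXp]
    congr 1
    ring
  rw [h2] at h1
  linarith

end Pool.Agent.Y180
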