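import Mathlib

/-!
# The combinatorial lemma for points of polynomial height
-/

set_option autoImplicit false

namespace Pool.Agent.Y180.LK

open Finset

theorem exists_others (r : Fin 3) : ∃ p q : Fin 3, p ≠ q ∧ q ≠ r ∧ p ≠ r := by
  fin_cases r
  · exact ⟨1, 2, by decide, by decide, by decide⟩
  · exact ⟨0, 2, by decide, by decide, by decide⟩
  · exact ⟨0, 1, by decide, by decide, by decide⟩

theorem exists_third {p q : Fin 3} (h : p ≠ q) : ∃ r : Fin 3, q ≠ r ∧ p ≠ r := by
  revert p q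
  decide

theorem sum_three {p q r : Fin 3} (hpq : p ≠ q) (hqr : q ≠ r) (hpr : p ≠ r) (f : Fin 3 → ℝ) :
    f p + f q + f r = f 0 + f 1 + f 2 := by
  fin_cases p <;> fin_cases q <;> fin_cases r <;> first
    | exact absurd rfl hpq
    | exact absurd rfl hqr
    | exact absurd rfl hpr
    | rfl
    | (simp only [Fin.zero_eta, Fin.mk_one, Fin.reduceFinMk]; ring)

/-- The combinatorial lemma. -/
theorem comb (M ε κ : ℝ) (E0 : ℕ) (hE0 : 2 ≤ E0) (hM : 3 * M ≤ E0) (hκ0 : 0 < κ) (hκε : κ ≤ ε)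
    (hκ : 200 * (E0 : ℝ) ^ 2 * κ ≤ 1) (θ : ℝ) (v : Fin 3 → ℝ) (m : Fin 3 → ℕ → ℝ)
    (hm : ∀ l e, 0 ≤ m l e)
    (hmv : ∀ l e, 1 ≤ e → e ≤ E0 → m l e ≤ v l)
    (hsum : v 0 + v 1 + v 2 ≤ 1)
    (hθ1 : 1 / 3 + ε ≤ θ) (hθ2 : θ ≤ M)
    (hA : ∀ l N, N ≤ E0 → ∑ e ∈ range N, ((e : ℝ) + 1) * m l (e + 1) +
      ((N : ℝ) + 1) * (v l - ∑ e ∈ range N, m l (e + 1)) ≤ θ + κ)
    (hB0 : ∀ p q r : Fin 3, p ≠ q → q ≠ r → p ≠ r → 2 / 3 - κ < v p + v q)
    (hB1 : 2 / 3 - κ < v 0 + v 1 + v 2 - (m 0 1 + m 1 1 + m 2 1) +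
      max 0 (-θ + (m 0 1 + m 1 1 + m 2 1)))
    (hB2 : ∀ p q r : Fin 3, p ≠ q → q ≠ r → p ≠ r → ∀ e, 1 ≤ e → e ≤ E0 →
      2 / 3 - κ < (v r - m r e) +
        1 / 2 * (κ + v p + max 0 (3 / 2 * v p - θ + e * m r e)) +
        1 / 2 * (κ + v q + max 0 (3 / 2 * v q - θ + e * m r e)))
    (hB3 : ∀ p q r : Fin 3, p ≠ q → q ≠ r → p ≠ r → ∀ e, 2 ≤ e → e ≤ E0 →
      2 / 3 - κ < (v p - m p e) + (v q - m q e) + v r) : False := by
  have hE0r : (2 : ℝ) ≤ E0 := by exact_mod_cast hE0
  have hκ1 : 800 * κ ≤ 1 := by nlinarith [mul_nonneg (sub_nonneg.2 hE0r) hκ0.le]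
  have hκ2 : 400 * (E0 * κ) ≤ 1 := by
    have : 0 ≤ (E0 : ℝ) * κ := by positivity
    nlinarith
  -- bounds for `v`
  have hvu : ∀ l, v l < 1 / 3 + κ := by
    intro l
    obtain ⟨p, q, h1, h2, h3⟩ := exists_others l
    have h4 := hB0 p q l h1 h2 h3
    have h5 := sum_three h1 h2 h3 v
    linarith
  have hvl : ∀ l, 1 / 3 - 2 * κ < v l := by
    intro l
    obtain ⟨p, q, h1, h2, h3⟩ := exists_others l
    have h4 := hB0 l p q h3.symm h1 h2.symm
    have h5 := hvu p
    linarith
  -- the sum of the exact ones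
  have hm1 : m 0 1 + m 1 1 + m 2 1 < 1 / 3 + κ := by
    rcases max_choice 0 (-θ + (m 0 1 + m 1 1 + m 2 1)) with h | h
    · rw [h] at hB1
      linarith
    · rw [h] at hB1
      linarith
  have hθ : 5 / 9 - 6 * κ ≤ θ := by
    have a0 := hA 0 1 (by omega)
    have a1 := hA 1 1 (by omega)
    have a2 := hA 2 1 (by omega)
    simp only [Finset.sum_range_one, Nat.cast_zero, Nat.cast_one, zero_add] at a0 a1 a2
    have := hvl 0
    have := hvl 1
    have := hvl 2
    linarith
  have key2 : ∀ r e, 1 ≤ e → e ≤ E0 → ¬ m r e < 4 * κ →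
      θ - 1 / 2 - 6 * κ < ((e : ℝ) - 1) * m r e := by
    intro r e h1 h2 h3
    rw [not_lt] at h3
    obtain ⟨p, q, d1, d2, d3⟩ := exists_others r
    have h4 := hB2 p q r d1 d2 d3 e h1 h2
    by_contra hcon
    rw [not_lt] at hcon
    have hr := hvu r
    have hp := hvu p
    have hq := hvu q
    have m1 : max 0 (3 / 2 * v p - θ + e * m r e) ≤ m r e - 4 * κ := by
      refine max_le (by linarith) ?_
      linarith
    have m2 : max 0 (3 / 2 * v q - θ + e * m r e) ≤ m r e - 4 * κ := by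
      refine max_le (by linarith) ?_
      linarith
    linarith
  -- lower bound for `θ`
  have low : ∀ l N, N ≤ E0 → (∀ e, e < N → m l (e + 1) < 4 * κ) →
      ((N : ℝ) + 1) / 3 - 1 / 25 ≤ θ := by
    intro l N hN h
    have h1 := hA l N hN
    have h2 : 0 ≤ ∑ e ∈ range N, ((e : ℝ) + 1) * m l (e + 1) :=
      Finset.sum_nonneg fun e _ => mul_nonneg (by positivity) (hm _ _)
    have h3 : ∑ e ∈ range N, m l (e + 1) ≤ N * (4 * κ) := by
      have := Finset.sum_le_sum fun e (he : e ∈ range N) => (h e (Finset.mem_range.1 he)).le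
      rw [Finset.sum_const, Finset.card_range, nsmul_eq_mul] at this
      exact this
    have hNr : (N : ℝ) ≤ E0 := by exact_mod_cast hN
    have hN0 : (0 : ℝ) ≤ N := Nat.cast_nonneg N
    have h4 := hvl l
    have h5 : ((N : ℝ) + 1) * (1 / 3 - 2 * κ - N * (4 * κ)) ≤
        ((N : ℝ) + 1) * (v l - ∑ e ∈ range N, m l (e + 1)) :=
      mul_le_mul_of_nonneg_left (by linarith) (by linarith)
    have h6 : (N : ℝ) * N * κ ≤ E0 ^ 2 * κ := by
      refine mul_le_mul_of_nonneg_right ?_ hκ0.le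
      nlinarith
    have h7 : (N : ℝ) * κ ≤ E0 * κ := mul_le_mul_of_nonneg_right hNr hκ0.le
    have h8 : ((N : ℝ) + 1) * (1 / 3 - 2 * κ - N * (4 * κ)) =
        ((N : ℝ) + 1) / 3 - 2 * κ - 6 * (N * κ) - 4 * (N * N * κ) := by ring
    rw [h8] at h5
    nlinarith
  -- the induction
  have ind : ∀ e, 1 ≤ e → e ≤ E0 → ∀ r, m r e < 4 * κ := by
    intro e
    induction e using Nat.strong_induction_on with
    | _ e ih =>
      intro he1 he2 r
      by_contra hr
      have hkr := key2 r e he1 he2 hr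
      rcases Nat.lt_or_ge 1 e with he | he
      swap
      · have : e = 1 := by omega
        subst this
        simp only [Nat.cast_one, sub_self, zero_mul] at hkr
        linarith
      have he1r : (2 : ℝ) ≤ e := by exact_mod_cast he
      have heE : (e : ℝ) ≤ E0 := by exact_mod_cast he2
      have heκ : (e : ℝ) * κ ≤ E0 * κ := mul_le_mul_of_nonneg_right heE hκ0.le
      have ih' : ∀ l, ∀ e', e' < e - 1 → m l (e' + 1) < 4 * κ := fun l e' h =>
        ih (e' + 1) (by omega) (by omega) (by omega) l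
      have hθe : (e : ℝ) / 3 - 1 / 25 ≤ θ := by
        have h1 := low r (e - 1) (by omega) (ih' r)
        rw [Nat.cast_sub he1, Nat.cast_one] at h1
        linarith
      have hother : ∀ p, p ≠ r → m p e < 4 * κ := by
        intro p hp
        by_contra hcon
        have hkp := key2 p e he1 he2 hcon
        obtain ⟨q, hq1, hq2⟩ := exists_third hp
        have h3 := hB3 p r q hp hq1 hq2 e (by omega) he2
        have hs := sum_three hp hq1 hq2 v
        have hpr : m p e + m r e < 1 / 3 + κ := by linarith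
        rcases Nat.lt_or_ge 2 e with h | h
        · have he3 : (3 : ℝ) ≤ e := by exact_mod_cast h
          have h4 : ((e : ℝ) - 1) * (m p e + m r e) ≤ ((e : ℝ) - 1) * (1 / 3 + κ) :=
            mul_le_mul_of_nonneg_left hpr.le (by linarith)
          nlinarith
        · have : e = 2 := by omega
          subst this
          have a1 := hA r 2 he2
          have a2 := hA p 2 he2
          have b1 := ih' r 0 (by norm_num)
          have b2 := ih' p 0 (by norm_num)
          have c1 := hvl r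
          have c2 := hvl p
          simp only [Finset.sum_range_succ, Finset.sum_range_zero, Nat.cast_zero, Nat.cast_one,
            zero_add, Nat.cast_ofNat, Nat.reduceAdd] at a1 a2 b1 b2
          push_cast at hkr hkp
          linarith
      -- only one side
      obtain ⟨p, q, _, _, hpr⟩ := exists_others r
      have hθe' : ((e : ℝ) + 1) / 3 - 1 / 25 ≤ θ := by
        refine low p e he2 fun e' h => ?_
        rcases Nat.lt_or_ge e' (e - 1) with h1 | h1
        · exact ih' p e' h1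
        · have : e' + 1 = e := by omega
          rw [this]
          exact hother p hpr
      have h5 : ((e : ℝ) - 1) * m r e ≤ ((e : ℝ) - 1) * (1 / 3 + κ) := by
        refine mul_le_mul_of_nonneg_left ?_ (by linarith)
        exact (hmv r e he1 he2).trans (hvu r).le
      nlinarith
  have h1 := low 0 E0 le_rfl fun e h => ind (e + 1) (by omega) (by omega) 0
  linarith

end Pool.Agent.Y180.LK
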