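import Pool.Agent.W108.AK.Cls
import Pool.Agent.Y180.LK.Comb

/-!
# The bound for a cell of points of polynomial height
-/

set_option autoImplicit false
set_option linter.unusedSectionVars false

namespace Pool.Agent.Y180.LK

open NumberField IsDedekindDomain Finset Pool.Agent.H691R3 Pool.Agent.W223.AK
open Pool.Agent.W108.AK

section Parts

variable {K : Type} [Field K] [NumberField K]

lemma rl_compl_add (a : Idl K) (F : Set ℕ) : rl (ex a F) + rl (ex a Fᶜ) = rl a := by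
  classical
  rw [rl_ex_sum, rl_ex_sum, ← Finset.sum_add_distrib]
  unfold rl
  refine Finset.sum_congr rfl fun v _ => ?_
  by_cases h : a v ∈ F
  · rw [if_pos h, if_neg (fun h' => h' h), add_zero]
  · rw [if_neg h, if_pos (show a v ∈ Fᶜ from h), zero_add]

lemma len_compl_add (a : Idl K) (F : Set ℕ) : len (ex a F) + len (ex a Fᶜ) = len a := by
  rw [← len_add, ex_add_compl]

lemma ne_compl (e : ℕ) : {m : ℕ | m ≠ e} = ({e} : Set ℕ)ᶜ := rfl

lemma rl_ne (a : Idl K) (e : ℕ) : rl (ex a {m | m ≠ e}) = rl a - rl (ex a {e}) := by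
  rw [ne_compl, ← rl_compl_add a {e}]
  ring

lemma len_ne (a : Idl K) (e : ℕ) : len (ex a {m | m ≠ e}) = len a - e * rl (ex a {e}) := by
  rw [ne_compl, ← len_compl_add a {e}, len_single]
  ring

lemma rl_ex_mono (a : Idl K) {F G : Set ℕ} (h : F ⊆ G) : rl (ex a F) ≤ rl (ex a G) := by
  refine rl_mono fun v hv => ?_
  rw [ex_support] at hv ⊢
  exact ⟨hv.1, h hv.2⟩

lemma rl_ex_le_rl (a : Idl K) (F : Set ℕ) : rl (ex a F) ≤ rl a := by
  refine rl_mono fun v hv => ?_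
  rw [ex_support] at hv
  rw [Finsupp.mem_support_iff]
  exact hv.1

lemma ex_empty (a : Idl K) : ex a ∅ = 0 := by
  classical
  ext v
  rw [Pool.Agent.W223.AK.ex_apply, if_neg (Set.notMem_empty _)]
  rfl

lemma ex_univ' (a : Idl K) : ex a Set.univ = a := ex_all a _ fun _ _ => Set.mem_univ _

lemma rl_tail_succ (a : Idl K) (N : ℕ) :
    rl (ex a {m | N < m}) = rl (ex a {m | N + 1 < m}) + rl (ex a {N + 1}) := by
  classical
  rw [rl_ex_sum, rl_ex_sum, rl_ex_sum, ← Finset.sum_add_distrib]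
  refine Finset.sum_congr rfl fun v _ => ?_
  simp only [Set.mem_ofPred_eq, Set.mem_singleton_iff]
  by_cases h1 : N < a v
  · by_cases h2 : a v = N + 1
    · rw [if_pos h1, if_neg (by omega), if_pos h2, zero_add]
    · rw [if_pos h1, if_pos (by omega), if_neg h2, add_zero]
  · rw [if_neg h1, if_neg (by omega), if_neg (by omega), add_zero]

lemma len_tail_succ (a : Idl K) (N : ℕ) :
    len (ex a {m | N < m}) = len (ex a {m | N + 1 < m}) + len (ex a {N + 1}) := by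
  classical
  rw [len_ex_sum, len_ex_sum, len_ex_sum, ← Finset.sum_add_distrib]
  refine Finset.sum_congr rfl fun v _ => ?_
  simp only [Set.mem_ofPred_eq, Set.mem_singleton_iff]
  by_cases h1 : N < a v
  · by_cases h2 : a v = N + 1
    · rw [if_pos h1, if_neg (by omega), if_pos h2, zero_add]
    · rw [if_pos h1, if_pos (by omega), if_neg h2, add_zero]
  · rw [if_neg h1, if_neg (by omega), if_neg (by omega), add_zero]

lemma ex_pos (a : Idl K) : ex a {m | 0 < m} = a := ex_all a _ fun _ h => h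

lemma rl_range (a : Idl K) (N : ℕ) :
    rl a = rl (ex a {m | N < m}) + ∑ e ∈ range N, rl (ex a {e + 1}) := by
  induction N with
  | zero => rw [ex_pos, Finset.sum_range_zero, add_zero]
  | succ N ih =>
    rw [Finset.sum_range_succ, ih, rl_tail_succ]
    ring

lemma len_range (a : Idl K) (N : ℕ) :
    len a = len (ex a {m | N < m}) + ∑ e ∈ range N, ((e : ℝ) + 1) * rl (ex a {e + 1}) := by
  induction N with
  | zero => rw [ex_pos, Finset.sum_range_zero, add_zero]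
  | succ N ih =>
    rw [Finset.sum_range_succ, ih, len_tail_succ, len_single]
    push_cast
    ring

/-- the weight inequality -/
lemma weight (a : Idl K) (N : ℕ) :
    ∑ e ∈ range N, ((e : ℝ) + 1) * rl (ex a {e + 1}) +
      ((N : ℝ) + 1) * (rl a - ∑ e ∈ range N, rl (ex a {e + 1})) ≤ len a := by
  have h1 := rl_range a N
  have h2 := len_range a N
  have h3 := le_len_of a {m | N < m} (N + 1) (fun m hm => hm)
  push_cast at h3
  have h4 : rl a - ∑ e ∈ range N, rl (ex a {e + 1}) = rl (ex a {m | N < m}) := by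
    rw [h1]; ring
  rw [h4]
  linarith

end Parts

section Cells

variable {K : Type} [Field K] [NumberField K]

/-- the points of a cell are close -/
structure Close (S : Finset (Pr K)) (n : ℕ) (P : K → Fin 3 → Idl K) (x y : K) : Prop where
  hht : |ht x - ht y| ≤ 1
  one : ∀ l, ∀ i : Fin n,
    |rl (ex (P x l) {(i : ℕ) + 1}) - rl (ex (P y l) {(i : ℕ) + 1})| ≤ 1
  tail : ∀ l, |rl (ex (P x l) {m | n < m}) - rl (ex (P y l) {m | n < m})| ≤ 1
  hlm : ∀ l, ∀ v ∈ Spl S, |lm v l x - lm v l y| ≤ 1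

/-- the gap principle, for fixed constants -/
def MBk (S : Finset (Pr K)) (k : ℕ) (ε D : ℝ) : Prop :=
    ∀ (X : ℝ) (E : Finset K) (P : K → Fin 3 → Idl K) (p q r : Fin 3) (I : Fin 3 → Set ℕ)
      (c g : Fin 3 → ℝ),
    0 ≤ X → (∀ x ∈ E, Pt x ∧ IsP S x (P x) ∧ ht x ≤ X) → p ≠ q → q ≠ r → p ≠ r →
    (∀ m, 1 ≤ m → m ∉ I p → k ∣ m) → (∀ m, 1 ≤ m → m ∉ I q → k ∣ m) →
    (∀ x ∈ E, ∀ l, rl (ex (P x l) (I l)) ≤ c l) →
    (∀ x ∈ E, ∀ l, g l ≤ len (ex (P x l) (I l)) + ∑ v ∈ Spl S, lm v l x) →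
    (E.card : ℝ) ≤ D * Real.exp (ε * X + (c p + c q + c r) +
      max 0 (2 * X / k - (g p + g q) / k - g r))

/-- the energy bound, for fixed constants -/
def ESTn (S : Finset (Pr K)) (n : ℕ) (ε D : ℝ) : Prop :=
    ∀ (X : ℝ) (E : Finset K) (P : K → Fin 3 → Idl K) (p q r : Fin 3) (F : Set ℕ)
      (ν : Fin 3 → Fin n → ℝ) (τ : Fin 3 → ℝ) (c Λ : ℝ) (σ : Pl K → ℝ),
    0 ≤ X → (∀ x ∈ E, Pt x ∧ IsP S x (P x) ∧ ht x ≤ X) → p ≠ q → q ≠ r → p ≠ r →
    (∀ j i, 0 ≤ ν j i) → (∀ j, ∑ i, ν j i ≤ X) →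
    (∀ x ∈ E, ∀ j, ∀ i : Fin n, rl (ex (P x j) {(i : ℕ) + 1}) ≤ ν j i) →
    (∀ x ∈ E, ∀ j, rl (ex (P x j) {m | n < m}) ≤ τ j) →
    (∀ x ∈ E, rl (ex (P x r) F) ≤ c) →
    (∀ x ∈ E, ∀ v ∈ Spl S, |lm v r x - σ v| ≤ 1) →
    (∀ x ∈ E, Λ ≤ len (ex (P x r) F) + ∑ v ∈ Spl S, σ v) →
    (E.card : ℝ) ≤ D * Real.exp (ε * X + c +
      1 / 2 * (2 * τ p + ∑ i, ν p i + max 0 (3 / 2 * ∑ i, ν p i - Λ)) +
      1 / 2 * (2 * τ q + ∑ i, ν q i + max 0 (3 / 2 * ∑ i, ν q i - Λ)))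

lemma mbk_of {S : Finset (Pr K)} (h : StmtMB S) (k : ℕ) (hk : 1 ≤ k) (hS : SGood S k) (ε : ℝ)
    (hε : 0 < ε) : ∃ D : ℝ, 0 < D ∧ MBk S k ε D := h k ε hk hS hε

lemma estn_of {S : Finset (Pr K)} (h : StmtEST S) (n : ℕ) (hS : SGood S n) (ε : ℝ)
    (hε : 0 < ε) : ∃ D : ℝ, 0 < D ∧ ESTn S n ε D := h n hS ε hε

/-- a cell -/
structure IsCell (S : Finset (Pr K)) (n : ℕ) (E : Finset K) (P : K → Fin 3 → Idl K)
    (x₀ : K) : Prop where
  mem : x₀ ∈ E
  pt : ∀ x ∈ E, Pt x ∧ IsP S x (P x)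
  close : ∀ x ∈ E, Close S n P x x₀

variable {S : Finset (Pr K)} {n : ℕ} {E : Finset K} {P : K → Fin 3 → Idl K} {x₀ x : K}

lemma IsCell.ht_le (h : IsCell S n E P x₀) (hx : x ∈ E) : ht x ≤ ht x₀ + 1 := by
  have := (abs_le.mp (h.close x hx).hht).2
  linarith

lemma IsCell.le_ht (h : IsCell S n E P x₀) (hx : x ∈ E) : ht x₀ - 1 ≤ ht x := by
  have := (abs_le.mp (h.close x hx).hht).1
  linarith

lemma IsCell.rl_abs (h : IsCell S n E P x₀) (hx : x ∈ E) (l : Fin 3) :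
    |rl (P x l) - rl (P x₀ l)| ≤ n + 1 := by
  have hc := h.close x hx
  rw [rl_cn_sum n (P x l), rl_cn_sum n (P x₀ l)]
  have h1 : |∑ i : Fin n, rl (ex (P x l) {(i : ℕ) + 1}) -
      ∑ i : Fin n, rl (ex (P x₀ l) {(i : ℕ) + 1})| ≤ n := by
    rw [← Finset.sum_sub_distrib]
    refine (Finset.abs_sum_le_sum_abs _ _).trans ?_
    refine (Finset.sum_le_sum fun i _ => hc.one l i).trans (le_of_eq ?_)
    rw [Finset.sum_const, Finset.card_univ, Fintype.card_fin, nsmul_eq_mul, mul_one]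
  have h2 := hc.tail l
  rw [abs_le] at h1 h2 ⊢
  constructor <;> linarith [h1.1, h1.2, h2.1, h2.2]

lemma IsCell.one_abs (h : IsCell S n E P x₀) (hx : x ∈ E) (l : Fin 3) {e : ℕ} (he : 1 ≤ e)
    (hen : e ≤ n) : |rl (ex (P x l) {e}) - rl (ex (P x₀ l) {e})| ≤ 1 := by
  have := (h.close x hx).one l ⟨e - 1, by omega⟩
  have h1 : e - 1 + 1 = e := by omega
  simp only [h1] at this
  exact this

lemma IsCell.rl_ne_le (h : IsCell S n E P x₀) (hx : x ∈ E) (l : Fin 3) {e : ℕ} (he : 1 ≤ e)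
    (hen : e ≤ n) : rl (ex (P x l) {m | m ≠ e}) ≤
      rl (P x₀ l) - rl (ex (P x₀ l) {e}) + (n + 2) := by
  rw [rl_ne]
  have h1 := (abs_le.mp (h.rl_abs hx l)).2
  have h2 := (abs_le.mp (h.one_abs hx l he hen)).1
  linarith

lemma IsCell.le_lm (h : IsCell S n E P x₀) (hx : x ∈ E) (l : Fin 3) :
    |∑ v ∈ Spl S, lm v l x - ∑ v ∈ Spl S, lm v l x₀| ≤ (Spl S).card := by
  rw [← Finset.sum_sub_distrib]
  refine (Finset.abs_sum_le_sum_abs _ _).trans ?_
  refine (Finset.sum_le_sum fun v hv => (h.close x hx).hlm l v hv).trans (le_of_eq ?_)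
  rw [Finset.sum_const, nsmul_eq_mul, mul_one]

/-- cost (0) -/
lemma IsCell.b0 (h : IsCell S n E P x₀) {ε D : ℝ} (hD : 0 ≤ D) (hM : MBk S 1 ε D)
    {p q r : Fin 3} (hpq : p ≠ q) (hqr : q ≠ r) (hpr : p ≠ r) :
    (E.card : ℝ) ≤ D * Real.exp (ε * (ht x₀ + 1) + (rl (P x₀ p) + rl (P x₀ q)) +
      (2 * (n + 1) + (4 + cS S))) := by
  classical
  have hh := ht_nonneg x₀
  have hcS := cS_nonneg S
  have hmain := hM (ht x₀ + 1) E P p q r (fun l => if l = r then ∅ else Set.univ)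
    (fun l => if l = r then 0 else rl (P x₀ l) + (n + 1))
    (fun l => if l = r then -cS S else ht x₀ - 1) (by linarith)
    (fun x hx => ⟨(h.pt x hx).1, (h.pt x hx).2, h.ht_le hx⟩) hpq hqr hpr
    (fun m _ _ => one_dvd m) (fun m _ _ => one_dvd m)
    (fun x hx l => by
      by_cases hl : l = r
      · simp only [if_pos hl, ex_empty, rl_zero]
        exact le_rfl
      · simp only [if_neg hl, ex_univ']
        have := (abs_le.mp (h.rl_abs hx l)).2
        linarith)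
    (fun x hx l => by
      by_cases hl : l = r
      · simp only [if_pos hl, ex_empty, len_zero]
        have := sum_lm_ge (S := S) (h.pt x hx).1 l
        linarith
      · simp only [if_neg hl, ex_univ']
        have h1 := sum_lm (h.pt x hx).1 (h.pt x hx).2 l
        have h2 := h.le_ht hx
        linarith)
  refine hmain.trans (mul_le_mul_of_nonneg_left (Real.exp_le_exp.mpr ?_) hD)
  simp only [if_neg hpr, if_neg hqr, if_true]
  have h3 : max 0 (2 * (ht x₀ + 1) / ((1 : ℕ) : ℝ) - (ht x₀ - 1 + (ht x₀ - 1)) / ((1 : ℕ) : ℝ) -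
      -cS S) ≤ 4 + cS S := by
    refine max_le (by linarith) ?_
    rw [Nat.cast_one, div_one, div_one]
    linarith
  linarith

/-- cost (1) -/
lemma IsCell.b1 (h : IsCell S n E P x₀) (hn : 1 ≤ n) {ε D : ℝ} (hD : 0 ≤ D)
    (hM : MBk S 1 ε D) :
    (E.card : ℝ) ≤ D * Real.exp (ε * (ht x₀ + 1) +
      ((rl (P x₀ 0) + rl (P x₀ 1) + rl (P x₀ 2)) -
        (rl (ex (P x₀ 0) {1}) + rl (ex (P x₀ 1) {1}) + rl (ex (P x₀ 2) {1})) +
        max 0 (-ht x₀ +
          (rl (ex (P x₀ 0) {1}) + rl (ex (P x₀ 1) {1}) + rl (ex (P x₀ 2) {1})))) +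
      (3 * (n + 2) + 8)) := by
  classical
  have hh := ht_nonneg x₀
  have hmain := hM (ht x₀ + 1) E P 0 1 2 (fun _ => {m | m ≠ 1})
    (fun l => rl (P x₀ l) - rl (ex (P x₀ l) {1}) + (n + 2))
    (fun l => ht x₀ - rl (ex (P x₀ l) {1}) - 2) (by linarith)
    (fun x hx => ⟨(h.pt x hx).1, (h.pt x hx).2, h.ht_le hx⟩) (by decide) (by decide) (by decide)
    (fun m _ _ => one_dvd m) (fun m _ _ => one_dvd m)
    (fun x hx l => h.rl_ne_le hx l le_rfl hn)
    (fun x hx l => by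
      rw [len_ne]
      have h1 := sum_lm (h.pt x hx).1 (h.pt x hx).2 l
      have h2 := h.le_ht hx
      have h3 := (abs_le.mp (h.one_abs hx l le_rfl hn)).2
      push_cast
      linarith)
  refine hmain.trans (mul_le_mul_of_nonneg_left (Real.exp_le_exp.mpr ?_) hD)
  set a := rl (ex (P x₀ 0) {1})
  set b := rl (ex (P x₀ 1) {1})
  set c := rl (ex (P x₀ 2) {1})
  have h3 : max 0 (2 * (ht x₀ + 1) / ((1 : ℕ) : ℝ) -
      (ht x₀ - a - 2 + (ht x₀ - b - 2)) / ((1 : ℕ) : ℝ) - (ht x₀ - c - 2)) ≤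
      max 0 (-ht x₀ + (a + b + c)) + 8 := by
    have h4 := le_max_left 0 (-ht x₀ + (a + b + c))
    have h5 := le_max_right 0 (-ht x₀ + (a + b + c))
    refine max_le (by linarith) ?_
    rw [Nat.cast_one, div_one, div_one]
    linarith
  linarith

/-- cost (3) -/
lemma IsCell.b3 (h : IsCell S n E P x₀) {e : ℕ} (he : 2 ≤ e) (hen : e ≤ n) {ε D : ℝ}
    (hD : 0 ≤ D) (hM : MBk S e ε D) {p q r : Fin 3} (hpq : p ≠ q) (hqr : q ≠ r) (hpr : p ≠ r) :
    (E.card : ℝ) ≤ D * Real.exp (ε * (ht x₀ + 1) +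
      ((rl (P x₀ p) - rl (ex (P x₀ p) {e})) + (rl (P x₀ q) - rl (ex (P x₀ q) {e})) +
        rl (P x₀ r)) + (3 * (n + 2) + (2 + cS S))) := by
  classical
  have hh := ht_nonneg x₀
  have hcS := cS_nonneg S
  have he0 : (2 : ℝ) ≤ e := by exact_mod_cast he
  have hdvd : ∀ l, l ≠ r → ∀ m, 1 ≤ m →
      m ∉ (if l = r then Set.univ else {m | ¬ e ∣ m} : Set ℕ) → e ∣ m := by
    intro l hl m _ h2
    rw [if_neg hl, Set.mem_ofPred_eq, not_not] at h2
    exact h2
  have hmain := hM (ht x₀ + 1) E P p q r (fun l => if l = r then Set.univ else {m | ¬ e ∣ m})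
    (fun l => if l = r then rl (P x₀ l) + (n + 1) else
      rl (P x₀ l) - rl (ex (P x₀ l) {e}) + (n + 2))
    (fun l => if l = r then ht x₀ - 1 else -cS S) (by linarith)
    (fun x hx => ⟨(h.pt x hx).1, (h.pt x hx).2, h.ht_le hx⟩) hpq hqr hpr
    (hdvd p hpr) (hdvd q hqr)
    (fun x hx l => by
      by_cases hl : l = r
      · simp only [if_pos hl, ex_univ']
        have := (abs_le.mp (h.rl_abs hx l)).2
        linarith
      · simp only [if_neg hl]
        refine le_trans (rl_ex_mono _ ?_) (h.rl_ne_le hx l (by omega) hen)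
        intro m hm hme
        rw [Set.mem_ofPred_eq] at hm
        exact hm (hme ▸ dvd_rfl))
    (fun x hx l => by
      by_cases hl : l = r
      · simp only [if_pos hl, ex_univ']
        have h1 := sum_lm (h.pt x hx).1 (h.pt x hx).2 l
        have h2 := h.le_ht hx
        linarith
      · simp only [if_neg hl]
        have h1 := sum_lm_ge (S := S) (h.pt x hx).1 l
        have h2 := len_nonneg (ex (P x l) {m | ¬ e ∣ m})
        linarith)
  refine hmain.trans (mul_le_mul_of_nonneg_left (Real.exp_le_exp.mpr ?_) hD)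
  simp only [if_neg hpr, if_neg hqr, if_true]
  have h3 : max 0 (2 * (ht x₀ + 1) / (e : ℝ) - (-cS S + -cS S) / (e : ℝ) - (ht x₀ - 1)) ≤
      2 + cS S := by
    refine max_le (by linarith) ?_
    have h4 : 2 * (ht x₀ + 1) / (e : ℝ) ≤ ht x₀ + 1 := by
      rw [div_le_iff₀ (by linarith)]
      nlinarith
    have h5 : -((-cS S + -cS S) / (e : ℝ)) ≤ cS S := by
      rw [← neg_div, div_le_iff₀ (by linarith)]
      nlinarith
    linarith
  linarith

/-- cost (2) -/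
lemma IsCell.b2 (h : IsCell S n E P x₀) {e : ℕ} (he : 1 ≤ e) (hen : e ≤ n) {ε D : ℝ}
    (hD : 0 ≤ D) (hE : ESTn S n ε D) {p q r : Fin 3} (hpq : p ≠ q) (hqr : q ≠ r) (hpr : p ≠ r) :
    (E.card : ℝ) ≤ D * Real.exp (ε * (ht x₀ + 1 + cS S + n) +
      ((rl (P x₀ r) - rl (ex (P x₀ r) {e})) +
        1 / 2 * (rl (ex (P x₀ p) {m | n < m}) + rl (P x₀ p) +
          max 0 (3 / 2 * rl (P x₀ p) - ht x₀ + e * rl (ex (P x₀ r) {e}))) +
        1 / 2 * (rl (ex (P x₀ q) {m | n < m}) + rl (P x₀ q) +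
          max 0 (3 / 2 * rl (P x₀ q) - ht x₀ + e * rl (ex (P x₀ r) {e})))) +
      (2 * (n + 2) + (3 / 2 * n + (1 + (Spl S).card + e)))) := by
  classical
  have hh := ht_nonneg x₀
  have hcS := cS_nonneg S
  have hn0 : (0 : ℝ) ≤ n := Nat.cast_nonneg n
  obtain ⟨hpt0, hP0⟩ := h.pt x₀ h.mem
  have hsum : ∀ j, ∑ i : Fin n, (rl (ex (P x₀ j) {(i : ℕ) + 1}) + 1) =
      rl (P x₀ j) - rl (ex (P x₀ j) {m | n < m}) + n := by
    intro j
    rw [Finset.sum_add_distrib, Finset.sum_const, Finset.card_univ, Fintype.card_fin,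
      nsmul_eq_mul, mul_one, rl_cn_sum n (P x₀ j)]
    ring
  have hmain := hE (ht x₀ + 1 + cS S + n) E P p q r {m | m ≠ e}
    (fun j i => rl (ex (P x₀ j) {(i : ℕ) + 1}) + 1)
    (fun j => rl (ex (P x₀ j) {m | n < m}) + 1)
    (rl (P x₀ r) - rl (ex (P x₀ r) {e}) + (n + 2))
    (ht x₀ - e * rl (ex (P x₀ r) {e}) - (1 + (Spl S).card + e))
    (fun v => lm v r x₀)
    (by linarith)
    (fun x hx => ⟨(h.pt x hx).1, (h.pt x hx).2, by
      have := h.ht_le hx
      linarith⟩)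
    hpq hqr hpr
    (fun j i => by
      have := rl_nonneg (ex (P x₀ j) {(i : ℕ) + 1})
      linarith)
    (fun j => by
      rw [hsum j]
      have h1 := rl_nonneg (ex (P x₀ j) {m | n < m})
      have h2 := rl_le_len (P x₀ j)
      have h3 := len_le hpt0 hP0 j
      linarith)
    (fun x hx j i => by
      have h1 := (abs_le.mp ((h.close x hx).one j i)).2
      linarith)
    (fun x hx j => by
      have h1 := (abs_le.mp ((h.close x hx).tail j)).2
      linarith)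
    (fun x hx => h.rl_ne_le hx r he hen)
    (fun x hx v hv => (h.close x hx).hlm r v hv)
    (fun x hx => by
      rw [len_ne]
      have h1 := sum_lm (h.pt x hx).1 (h.pt x hx).2 r
      have h2 := h.le_ht hx
      have h3 := (abs_le.mp (h.one_abs hx r he hen)).2
      have h4 := (abs_le.mp (h.le_lm hx r)).2
      have h5 : (e : ℝ) * rl (ex (P x r) {e}) ≤ e * (rl (ex (P x₀ r) {e}) + 1) :=
        mul_le_mul_of_nonneg_left (by linarith) (Nat.cast_nonneg e)
      linarith)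
  refine hmain.trans (mul_le_mul_of_nonneg_left (Real.exp_le_exp.mpr ?_) hD)
  rw [hsum p, hsum q]
  have key : ∀ j, max 0 (3 / 2 * (rl (P x₀ j) - rl (ex (P x₀ j) {m | n < m}) + n) -
      (ht x₀ - e * rl (ex (P x₀ r) {e}) - (1 + (Spl S).card + e))) ≤
      max 0 (3 / 2 * rl (P x₀ j) - ht x₀ + e * rl (ex (P x₀ r) {e})) +
        (3 / 2 * n + (1 + (Spl S).card + e)) := by
    intro j
    have h1 := rl_nonneg (ex (P x₀ j) {m | n < m})
    have h4 := le_max_left 0 (3 / 2 * rl (P x₀ j) - ht x₀ + e * rl (ex (P x₀ r) {e}))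
    have h5 := le_max_right 0 (3 / 2 * rl (P x₀ j) - ht x₀ + e * rl (ex (P x₀ r) {e}))
    have h6 : (0 : ℝ) ≤ 3 / 2 * n + (1 + (Spl S).card + e) := by positivity
    refine max_le (by linarith) ?_
    linarith
  have k1 := key p
  have k2 := key q
  linarith

end Cells

end Pool.Agent.Y180.LK
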